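import Pool.Agent.MP_514f48_lc.Defs

/-!
Block decompositions of point sets and the hereditary form of the substitution closure.
-/

namespace Pool.Agent.MP_514f48_lc

/-- `a < b` if `d` is true and `b < a` otherwise. -/
def lt' (d : Bool) (a b : ℕ) : Prop := (d = true ∧ a < b) ∨ (d = false ∧ b < a)

theorem lt'_trans {d : Bool} {a b c : ℕ} (h1 : lt' d a b) (h2 : lt' d b c) : lt' d a c := by
  cases d <;> simp [lt'] at * <;> omega

theorem lt'_total {d : Bool} {a b : ℕ} (h : a ≠ b) (h1 : ¬ lt' d a b) : lt' d b a := by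
  cases d <;> simp [lt'] at * <;> omega

theorem lt'_asymm {d : Bool} {a b : ℕ} (h1 : lt' d a b) : ¬ lt' d b a := by
  cases d <;> simp [lt'] at * <;> omega

theorem lt'_ne {d : Bool} {a b : ℕ} (h1 : lt' d a b) : a ≠ b := by
  cases d <;> simp [lt'] at * <;> omega

section dec

variable {X X' : Type} [LinearOrder X] [LinearOrder X']

/-- `B` cuts `S` into at least two blocks, which are intervals. -/
structure Blocks (S : Set X) (q : X → ℕ) (B : X → ℕ) : Prop where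
  mono : ∀ a ∈ S, ∀ b ∈ S, a ≤ b → B a ≤ B b
  two : ∃ a ∈ S, ∃ b ∈ S, B a ≠ B b
  unif : ∀ a ∈ S, ∀ a' ∈ S, ∀ b ∈ S, ∀ b' ∈ S, B a = B a' → B b = B b' → B a ≠ B b →
    q a < q b → q a' < q b'

/-- The quotient is gridded by a matrix with directions `D`. -/
def GridQ (K : ℕ) (D : ℕ → ℕ → Bool) (S : Set X) (q : X → ℕ) (B : X → ℕ) : Prop :=
  ∃ c r : X → ℕ, (∀ a ∈ S, c a ≤ K ∧ r a ≤ K) ∧
    (∀ a ∈ S, ∀ b ∈ S, (a ≤ b → c a ≤ c b) ∧ (q a ≤ q b → r a ≤ r b) ∧
      (B a = B b → c a = c b ∧ r a = r b) ∧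
      (a < b → B a ≠ B b → c a = c b → r a = r b → lt' (D (c a) (r a)) (q a) (q b)))

/-- The quotient avoids `321` (`d` true) or `123` (`d` false). -/
def AvQ (d : Bool) (S : Set X) (q : X → ℕ) (B : X → ℕ) : Prop :=
  ∀ a ∈ S, ∀ b ∈ S, ∀ c ∈ S, a < b → b < c → B a ≠ B b → B b ≠ B c →
    lt' d (q c) (q b) → ¬ lt' d (q b) (q a)

/-- `S` has a decomposition whose quotient is gridded or avoids `321` or `123`. -/
def Dec (K : ℕ) (D : ℕ → ℕ → Bool) (S : Set X) (q : X → ℕ) : Prop :=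
  ∃ B, Blocks S q B ∧ (GridQ K D S q B ∨ ∃ d, AvQ d S q B)

theorem Dec.pull {K : ℕ} {D : ℕ → ℕ → Bool} {S : Set X} {q : X → ℕ} {q' : X' → ℕ} (φ : X → X')
    (h1 : ∀ a ∈ S, ∀ b ∈ S, φ a ≠ φ b → (a < b ↔ φ a < φ b) ∧ (q a < q b ↔ q' (φ a) < q' (φ b)))
    (h : Dec K D (φ '' S) q') : Dec K D S q := by
  obtain ⟨B, hB, h⟩ := h
  have m : ∀ a ∈ S, φ a ∈ φ '' S := fun a ha => ⟨a, ha, rfl⟩
  have hm : ∀ a ∈ S, ∀ b ∈ S, a ≤ b → φ a ≤ φ b := fun a ha b hb hab => by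
    by_contra hn
    have hn := lt_of_not_ge hn
    exact absurd ((h1 b hb a ha hn.ne).1.2 hn) (not_lt.2 hab)
  have hne : ∀ a b, B (φ a) ≠ B (φ b) → φ a ≠ φ b := fun a b h e => h (by rw [e])
  have hlt : ∀ d, ∀ a ∈ S, ∀ b ∈ S, φ a ≠ φ b →
      (lt' d (q a) (q b) ↔ lt' d (q' (φ a)) (q' (φ b))) := fun d a ha b hb h => by
    simp only [lt', (h1 a ha b hb h).2, (h1 b hb a ha h.symm).2]
  refine ⟨fun a => B (φ a), ⟨fun a ha b hb hab => hB.mono _ (m a ha) _ (m b hb) (hm a ha b hb hab),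
    ?_, fun a ha a' ha' b hb b' hb' e1 e2 e3 e4 => ?_⟩, ?_⟩
  · obtain ⟨_, ⟨a, ha, rfl⟩, _, ⟨b, hb, rfl⟩, hab⟩ := hB.two
    exact ⟨a, ha, b, hb, hab⟩
  · exact (h1 a' ha' b' hb' (hne _ _ (by rw [← e1, ← e2]; exact e3))).2.2
      (hB.unif _ (m a ha) _ (m a' ha') _ (m b hb) _ (m b' hb') e1 e2 e3
        ((h1 a ha b hb (hne _ _ e3)).2.1 e4))
  · rcases h with ⟨c, r, k1, k2⟩ | ⟨d, h⟩
    · refine Or.inl ⟨fun a => c (φ a), fun a => r (φ a), fun a ha => k1 _ (m a ha),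
        fun a ha b hb => ?_⟩
      obtain ⟨l1, l2, l3, l4⟩ := k2 _ (m a ha) _ (m b hb)
      refine ⟨fun h => l1 (hm a ha b hb h), fun h => ?_, l3, fun e1 e2 e3 e4 => ?_⟩
      · by_cases e : φ a = φ b
        · simp only [e, le_refl]
        · refine l2 (not_lt.1 fun hn => ?_)
          exact absurd ((h1 b hb a ha (Ne.symm e)).2.2 hn) (not_lt.2 h)
      · exact (hlt _ a ha b hb (hne _ _ e2)).2 (l4 ((h1 a ha b hb (hne _ _ e2)).1.1 e1) e2 e3 e4)
    · refine Or.inr ⟨d, fun a ha b hb c hc e1 e2 e3 e4 e5 e6 => ?_⟩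
      exact h _ (m a ha) _ (m b hb) _ (m c hc) ((h1 a ha b hb (hne _ _ e3)).1.1 e1)
        ((h1 b hb c hc (hne _ _ e4)).1.1 e2) e3 e4 ((hlt _ c hc b hb (hne _ _ e4.symm)).1 e5)
        ((hlt _ b hb a ha (hne _ _ e3.symm)).1 e6)

end dec

/-- The directions of the cells of `M`, as a table. -/
noncomputable def tab {k l : ℕ} (M : Fin k → Fin l → Cell) : List (List Bool) :=
  open Classical in List.ofFn (fun i => List.ofFn (fun j => decide (M i j = Cell.inc)))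

/-- Reading the table. -/
def dirOf (t : List (List Bool)) (i j : ℕ) : Bool := (t.getD i []).getD j false

theorem dirOf_tab {k l : ℕ} (M : Fin k → Fin l → Cell) (i : Fin k) (j : Fin l) :
    dirOf (tab M) i j = true ↔ M i j = Cell.inc := by
  simp [dirOf, tab, List.getD_eq_getElem?_getD]

theorem blocks_val {τ : Pm} {S : Set (Fin τ.1)} (hS : S.Nontrivial) :
    Blocks S (fun x => (τ.2 x : ℕ)) Fin.val := by
  refine ⟨fun a _ b _ h => h, ?_, fun a _ a' _ b _ b' _ e1 e2 _ h => ?_⟩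
  · obtain ⟨a, ha, b, hb, h⟩ := hS
    exact ⟨a, ha, b, hb, fun e => h (Fin.ext e)⟩
  · rwa [← Fin.ext e1, ← Fin.ext e2]

theorem dec_of_subCl {k l : ℕ} (M : Fin k → Fin l → Cell) {τ : Pm}
    (h : SubCl (fun σ => InGrid M σ ∨ Av321 σ ∨ Av123 σ) τ) :
    ∀ S : Set (Fin τ.1), S.Nontrivial → Dec (k + l) (dirOf (tab M)) S (fun x => (τ.2 x : ℕ)) := by
  induction h with
  | @base τ h =>
    intro S hS
    refine ⟨Fin.val, blocks_val hS, ?_⟩
    rcases h with ⟨c, r, hc, hr, h1, h2⟩ | h | h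
    · refine Or.inl ⟨fun a => c a, fun a => r (τ.2 a),
        fun a _ => ⟨(c a).2.le.trans (by omega), (r _).2.le.trans (by omega)⟩,
        fun a _ b _ => ⟨fun h => hc h, fun h => hr h, fun h => by rw [Fin.ext h]; exact ⟨rfl, rfl⟩,
          fun e1 _ e2 e3 => ?_⟩⟩
      obtain ⟨k1, k2⟩ := h2 a b e1 (Fin.ext e2) (Fin.ext e3)
      have k3 := dirOf_tab M (c a) (r (τ.2 a))
      have k4 := h1 a
      cases hM : M (c a) (r (τ.2 a)) with
      | inc => exact Or.inl ⟨k3.2 hM, k1 hM⟩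
      | dec => exact Or.inr ⟨by simpa [hM] using k3, k2 hM⟩
      | empty => exact absurd hM k4
    · refine Or.inr ⟨true, fun a _ b _ c _ e1 e2 _ _ e3 e4 => h ⟨a, b, c, e1, e2, ?_, ?_⟩⟩
      · simpa [lt'] using e3
      · simpa [lt'] using e4
    · refine Or.inr ⟨false, fun a _ b _ c _ e1 e2 _ _ e3 e4 => h ⟨a, b, c, e1, e2, ?_, ?_⟩⟩
      · simpa [lt'] using e4
      · simpa [lt'] using e3
  | @infl σ τ α _ _ he ih1 ih2 =>
    intro S hS
    obtain ⟨e, h1, h2⟩ := he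
    by_cases hb : ((fun x => (e.symm x).1) '' S).Nontrivial
    · refine Dec.pull (fun x => (e.symm x).1) (fun a _ b _ hab => ?_) (ih1 _ hb)
      obtain ⟨⟨i, x⟩, rfl⟩ := e.surjective a
      obtain ⟨⟨j, y⟩, rfl⟩ := e.surjective b
      simp only [Equiv.symm_apply_apply] at hab ⊢
      exact h2 i j x y hab
    · obtain ⟨a, ha, b, hb', hab⟩ := hS
      obtain ⟨⟨i, x0⟩, rfl⟩ := e.surjective a
      have hS : ∀ z ∈ S, ∃ y, z = e ⟨i, y⟩ := fun z hz => by
        obtain ⟨⟨j, y⟩, rfl⟩ := e.surjective z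
        have := Set.not_nontrivial_iff.1 hb ⟨_, hz, rfl⟩ ⟨_, ha, rfl⟩
        simp only [Equiv.symm_apply_apply] at this
        subst this
        exact ⟨y, rfl⟩
      have : Nonempty (Fin (α i).1) := ⟨x0⟩
      have hinj : Function.Injective (fun y => e ⟨i, y⟩) := fun y z h =>
        eq_of_heq (Sigma.mk.inj (e.injective h)).2
      have hφ : ∀ y, Function.invFun (fun y => e ⟨i, y⟩) (e ⟨i, y⟩) = y :=
        Function.leftInverse_invFun hinj
      refine Dec.pull (Function.invFun (fun y => e ⟨i, y⟩)) (fun a ha b hb _ => ?_) (ih2 i _ ?_)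
      · obtain ⟨x, rfl⟩ := hS a ha
        obtain ⟨y, rfl⟩ := hS b hb
        rw [hφ, hφ]
        exact h1 i x y
      · obtain ⟨y, rfl⟩ := hS b hb'
        refine ⟨_, ⟨_, ha, rfl⟩, _, ⟨_, hb', rfl⟩, ?_⟩
        rw [hφ, hφ]
        exact fun h => hab (by rw [h])

/-- The value at a position. -/
def vl (l : List ℕ) (x : ℕ) : ℕ := l.getD x 0

theorem length_code (τ : Pm) : (code τ).length = τ.1 := by simp [code]

theorem vl_code (τ : Pm) (x : Fin τ.1) : vl (code τ) x = τ.2 x := by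
  simp [vl, code, List.getD_eq_getElem?_getD]

/-- The list is the one-line notation of a permutation. -/
def Good (l : List ℕ) : Prop :=
  ∀ x < l.length, vl l x < l.length ∧ ∀ y < l.length, vl l x = vl l y → x = y

theorem good_code (τ : Pm) : Good (code τ) := by
  intro x hx
  rw [length_code] at hx ⊢
  have h1 := vl_code τ ⟨x, hx⟩
  refine ⟨by rw [h1]; exact (τ.2 _).2, fun y hy h => ?_⟩
  have h2 := vl_code τ ⟨y, hy⟩
  simp only at h1 h2
  rw [h1, h2] at h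
  exact congrArg Fin.val (τ.2.injective (Fin.ext h))

/-- Every set of at least two points has a decomposition. -/
def Her (K : ℕ) (t : List (List Bool)) (l : List ℕ) : Prop :=
  ∀ S : Set ℕ, (∀ x ∈ S, x < l.length) → S.Nontrivial → Dec K (dirOf t) S (vl l)

theorem her_of_subCl {k l : ℕ} (M : Fin k → Fin l → Cell) {τ : Pm}
    (h : SubCl (fun σ => InGrid M σ ∨ Av321 σ ∨ Av123 σ) τ) : Her (k + l) (tab M) (code τ) := by
  intro S hS hn
  rw [length_code] at hS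
  obtain ⟨a, ha, b, hb, hab⟩ := hn
  let φ : ℕ → Fin τ.1 := fun x => if h : x < τ.1 then ⟨x, h⟩ else ⟨a, hS a ha⟩
  have hφ : ∀ x (hx : x ∈ S), φ x = ⟨x, hS x hx⟩ := fun x hx => dif_pos (hS x hx)
  refine Dec.pull φ (fun x hx y hy _ => ?_) (dec_of_subCl M h _ ?_)
  · rw [hφ x hx, hφ y hy, ← vl_code, ← vl_code]
    exact ⟨Iff.rfl, Iff.rfl⟩
  · refine ⟨_, ⟨a, ha, rfl⟩, _, ⟨b, hb, rfl⟩, ?_⟩
    rw [hφ a ha, hφ b hb]
    exact fun e => hab (congrArg Fin.val e)

/-- The number of grid lines at or below `v`. -/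
def cnt (Θ : List ℕ) (v : ℕ) : ℕ := Θ.countP (fun θ => decide (θ ≤ v))

/-- All lists of length `K` over `L`. -/
def tuples (L : List ℕ) : ℕ → List (List ℕ)
  | 0 => [[]]
  | K + 1 => L.flatMap (fun a => (tuples L K).map (fun t => a :: t))

theorem mem_tuples (L : List ℕ) (Θ : List ℕ) (h : ∀ a ∈ Θ, a ∈ L) : Θ ∈ tuples L Θ.length := by
  induction Θ with
  | nil => simp [tuples]
  | cons a Θ ih =>
    simp only [List.length_cons, tuples, List.mem_flatMap, List.mem_map]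
    exact ⟨a, h a (by simp), Θ, ih fun b hb => h b (by simp [hb]), rfl⟩

theorem exists_lines (K N : ℕ) (S : ℕ → Prop) (key r : ℕ → ℕ) (h1 : ∀ x, S x → key x < N ∧ r x ≤ K)
    (h2 : ∀ x y, S x → S y → key x ≤ key y → r x ≤ r y) :
    ∃ Θ ∈ tuples (List.range (N + 1)) K, ∀ x, S x → cnt Θ (key x) = r x := by
  classical
  have ex : ∀ i, ∃ v, v = N ∨ ∃ u, S u ∧ key u ≤ v ∧ i < r u := fun i => ⟨N, Or.inl rfl⟩
  refine ⟨(List.range K).map (fun i => Nat.find (ex i)), ?_, fun x hx => ?_⟩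
  · have := mem_tuples (List.range (N + 1)) ((List.range K).map (fun i => Nat.find (ex i))) (by
      intro a ha
      obtain ⟨i, -, rfl⟩ := List.mem_map.1 ha
      exact List.mem_range.2 (Nat.lt_succ_of_le (Nat.find_min' _ (Or.inl rfl))))
    simpa using this
  · have e : ∀ i, Nat.find (ex i) ≤ key x ↔ i < r x := fun i => by
      refine ⟨fun h => ?_, fun h => Nat.find_min' _ (Or.inr ⟨x, hx, le_rfl, h⟩)⟩
      rcases Nat.find_spec (ex i) with h' | ⟨u, hu, h3, h4⟩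
      · have := (h1 x hx).1
        omega
      · exact h4.trans_le (h2 u x hu hx (h3.trans h))
    simp only [cnt, List.countP_map, Function.comp_def, e]
    obtain ⟨j, hj⟩ := Nat.exists_eq_add_of_le (h1 x hx).2
    rw [hj, List.range_add, List.countP_append, List.countP_eq_length.2, List.countP_eq_zero.2]
    · simp
    · simp only [List.mem_map, List.mem_range, decide_eq_true_eq, not_lt, forall_exists_index, and_imp, forall_apply_eq_imp_iff₂, le_add_iff_nonneg_right, zero_le, implies_true]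
    · simp

/-- The points of `L` between `a` and `b` form a proper interval. -/
def Ivl (L l : List ℕ) (a b : ℕ) : Prop :=
  (∀ z ∈ L, z < a ∨ b < z → ∀ u ∈ L, ∀ v ∈ L, a ≤ u → u ≤ b → a ≤ v → v ≤ b →
    (vl l z < vl l u → vl l z < vl l v) ∧ (vl l u < vl l z → vl l v < vl l z)) ∧
  ∃ z ∈ L, z < a ∨ b < z

/-- `x` and `y` lie in a common proper interval. -/
def Sim (L l : List ℕ) (x y : ℕ) : Prop :=
  ∃ a ∈ L, ∃ b ∈ L, Ivl L l a b ∧ a ≤ x ∧ x ≤ b ∧ a ≤ y ∧ y ≤ b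

/-- Cutting at `i` is a sum (`d` true) or skew sum decomposition. -/
def Cut (L l : List ℕ) (d : Bool) (i : ℕ) : Prop :=
  (∃ x ∈ L, x < i) ∧ (∃ y ∈ L, i ≤ y) ∧ ∀ x ∈ L, ∀ y ∈ L, x < i → i ≤ y → lt' d (vl l x) (vl l y)

section ivl

variable {L l : List ℕ}

theorem Ivl.lt' {a b z u v : ℕ} (h : Ivl L l a b) (hz : z ∈ L) (hz' : z < a ∨ b < z) (hu : u ∈ L)
    (hv : v ∈ L) (h1 : a ≤ u) (h2 : u ≤ b) (h3 : a ≤ v) (h4 : v ≤ b) (d : Bool) :
    (lt' d (vl l z) (vl l u) → lt' d (vl l z) (vl l v)) ∧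
      (lt' d (vl l u) (vl l z) → lt' d (vl l v) (vl l z)) := by
  have := h.1 z hz hz' u hu v hv h1 h2 h3 h4
  cases d <;> simp only [MP_514f48_lc.lt'] <;> tauto

theorem Sim.symm {x y : ℕ} (h : Sim L l x y) : Sim L l y x := by
  obtain ⟨a, ha, b, hb, h, h1, h2, h3, h4⟩ := h
  exact ⟨a, ha, b, hb, h, h3, h4, h1, h2⟩

theorem sim_refl {x : ℕ} (hx : x ∈ L) (h2 : ∃ a ∈ L, ∃ b ∈ L, a ≠ b) : Sim L l x x := by
  refine ⟨x, hx, x, hx, ⟨fun z _ _ u _ v _ h1 h2 h3 h4 => ?_, ?_⟩, le_rfl, le_rfl, le_rfl, le_rfl⟩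
  · rw [le_antisymm h2 h1, le_antisymm h4 h3]
    exact ⟨id, id⟩
  · obtain ⟨a, ha, b, hb, h⟩ := h2
    by_cases e : a = x
    · exact ⟨b, hb, by omega⟩
    · exact ⟨a, ha, by omega⟩

variable (hinj : ∀ x ∈ L, ∀ y ∈ L, vl l x = vl l y → x = y) (hind : ∀ d i, ¬ Cut L l d i)
include hinj hind

theorem union_aux {a b a' b' w : ℕ} (h : Ivl L l a b) (h' : Ivl L l a' b') (hw : w ∈ L)
    (h1 : w ≤ b) (h2 : a' ≤ w) (h3 : a ≤ a') : ∃ z ∈ L, z < a ∨ b' < z := by
  by_contra hn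
  push Not at hn
  obtain ⟨y0, hy0, k1⟩ := h.2
  obtain ⟨x0, hx0, k2⟩ := h'.2
  have e1 := hn y0 hy0
  have e2 := hn x0 hx0
  have hne : vl l w ≠ vl l y0 := fun e => by have := hinj _ hw _ hy0 e; omega
  obtain ⟨d, hd⟩ : ∃ d, lt' d (vl l w) (vl l y0) := by
    by_cases e : lt' true (vl l w) (vl l y0)
    · exact ⟨_, e⟩
    · exact ⟨false, by simp [lt'] at e ⊢; omega⟩
  refine hind d a' ⟨⟨x0, hx0, by omega⟩, ⟨w, hw, h2⟩, fun x hx y hy hxa hya => ?_⟩
  have e3 := hn x hx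
  have e4 := hn y hy
  exact (h'.lt' hx (Or.inl hxa) hy0 hy (by omega) (by omega) hya (by omega) d).1
    ((h.lt' hy0 k1 hw hx (by omega) h1 (by omega) (by omega) d).2 hd)

theorem Ivl.union {a b a' b' w : ℕ} (h : Ivl L l a b) (h' : Ivl L l a' b') (hw : w ∈ L)
    (h1 : a ≤ w) (h2 : w ≤ b) (h3 : a' ≤ w) (h4 : w ≤ b') : Ivl L l (min a a') (max b b') := by
  constructor
  · intro z hz hz' u hu v hv e1 e2 e3 e4
    have k : ∀ u ∈ L, min a a' ≤ u → u ≤ max b b' →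
        (vl l z < vl l u ↔ vl l z < vl l w) ∧ (vl l u < vl l z ↔ vl l w < vl l z) := by
      intro u hu e1 e2
      by_cases e : a ≤ u ∧ u ≤ b
      · have k1 := h.1 z hz (by omega) u hu w hw e.1 e.2 h1 h2
        have k2 := h.1 z hz (by omega) w hw u hu h1 h2 e.1 e.2
        tauto
      · have k1 := h'.1 z hz (by omega) u hu w hw (by omega) (by omega) h3 h4
        have k2 := h'.1 z hz (by omega) w hw u hu h3 h4 (by omega) (by omega)
        tauto
    have k1 := k u hu e1 e2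
    have k2 := k v hv e3 e4
    tauto
  · rcases le_total a a' with e1 | e1 <;> rcases le_total b b' with e2 | e2
    · simpa only [e1, inf_of_le_left, e2, sup_of_le_right] using union_aux hinj hind h h' hw h2 h3 e1
    · simpa only [e1, inf_of_le_left, e2, sup_of_le_left] using h.2
    · simpa only [e1, inf_of_le_right, e2, sup_of_le_right] using h'.2
    · simpa only [e1, inf_of_le_right, e2, sup_of_le_left] using union_aux hinj hind h' h hw h4 h1 e1

theorem Sim.trans {x y z : ℕ} (hy : y ∈ L) (h : Sim L l x y) (h' : Sim L l y z) : Sim L l x z := by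
  obtain ⟨a, ha, b, hb, h, h1, h2, h3, h4⟩ := h
  obtain ⟨a', ha', b', hb', h', h5, h6, h7, h8⟩ := h'
  refine ⟨_, ?_, _, ?_, h.union hinj hind h' hy h3 h4 h5 h6, by omega, by omega, by omega, by omega⟩
  · rcases min_choice a a' with e | e <;> rw [e] <;> assumption
  · rcases max_choice b b' with e | e <;> rw [e] <;> assumption

theorem exists_partner {x : ℕ} (hx : x ∈ L) (h2 : ∃ a ∈ L, ∃ b ∈ L, a ≠ b) (d : Bool) :
    ∃ y ∈ L, ¬ Sim L l x y ∧
      ((x < y ∧ lt' d (vl l y) (vl l x)) ∨ (y < x ∧ lt' d (vl l x) (vl l y))) := by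
  classical
  obtain ⟨⟨A, B⟩, hAB, hmax⟩ := Finset.exists_max_image
    ((L.toFinset ×ˢ L.toFinset).filter (fun ab => Ivl L l ab.1 ab.2 ∧ ab.1 ≤ x ∧ x ≤ ab.2))
    (fun ab => ab.2 - ab.1) (by
      obtain ⟨a, ha, b, hb, h, h1, h2, -⟩ := sim_refl (l := l) hx h2
      exact ⟨(a, b), by simp only [Finset.mem_filter, Finset.mem_product, List.mem_toFinset, ha, hb, and_self, h, h1, h2]⟩)
  simp only [Finset.mem_filter, Finset.mem_product, List.mem_toFinset] at hAB hmax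
  obtain ⟨⟨hA, hB⟩, hI, h3, h4⟩ := hAB
  have hout : ∀ y, y < A ∨ B < y → ¬ Sim L l x y := by
    rintro y hy ⟨a, ha, b, hb, h, h5, h6, h7, h8⟩
    have := hmax (min A a, max B b) ⟨⟨?_, ?_⟩, hI.union hinj hind h hx h3 h4 h5 h6,
      by simp only; omega, by simp only; omega⟩
    · simp only at this
      omega
    · rcases min_choice A a with e | e <;> simp only [e] <;> assumption
    · rcases max_choice B b with e | e <;> simp only [e] <;> assumption
  by_contra hn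
  have hlo : ∀ y ∈ L, y < A → lt' d (vl l y) (vl l x) := fun y hy h =>
    lt'_total (fun e => by have := hinj _ hx _ hy e; omega)
      (fun e => hn ⟨y, hy, hout y (Or.inl h), Or.inr ⟨by omega, e⟩⟩)
  have hhi : ∀ y ∈ L, B < y → lt' d (vl l x) (vl l y) := fun y hy h =>
    lt'_total (fun e => by have := hinj _ hy _ hx e; omega)
      (fun e => hn ⟨y, hy, hout y (Or.inr h), Or.inl ⟨by omega, e⟩⟩)
  by_cases hz : ∃ z ∈ L, z < A
  · refine hind d A ⟨hz, ⟨x, hx, h3⟩, fun u hu v hv e1 e2 => ?_⟩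
    by_cases e : v ≤ B
    · exact (hI.lt' hu (Or.inl e1) hx hv h3 h4 e2 e d).1 (hlo u hu e1)
    · exact lt'_trans (hlo u hu e1) (hhi v hv (by omega))
  · push Not at hz
    obtain ⟨z, hz1, hz2⟩ := hI.2
    have := hz z hz1
    refine hind d (B + 1) ⟨⟨x, hx, by omega⟩, ⟨z, hz1, by omega⟩, fun u hu v hv e1 e2 => ?_⟩
    exact (hI.lt' hv (Or.inr (by omega)) hx hu h3 h4 (hz u hu) (by omega) d).2
      (hhi v hv (by omega))

end ivl

theorem Blocks.sim {L l : List ℕ} {B : ℕ → ℕ} (h : Blocks {x | x ∈ L} (vl l) B) {x y : ℕ}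
    (hx : x ∈ L) (hy : y ∈ L) (e : B x = B y) : Sim L l x y := by
  classical
  have hne : (L.toFinset.filter (fun z => B z = B x)).Nonempty := ⟨x, by simp [hx]⟩
  have ha := Finset.min'_mem _ hne
  have hb := Finset.max'_mem _ hne
  have h1 : ∀ z ∈ L, B z = B x → Finset.min' _ hne ≤ z ∧ z ≤ Finset.max' _ hne := fun z hz e =>
    ⟨Finset.min'_le _ _ (by simp [hz, e]), Finset.le_max' _ _ (by simp [hz, e])⟩
  generalize Finset.min' _ hne = a at ha h1
  generalize Finset.max' _ hne = b at hb h1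
  simp only [Finset.mem_filter, List.mem_toFinset] at ha hb
  have h2 : ∀ z ∈ L, a ≤ z → z ≤ b → B z = B x := fun z hz e1 e2 => by
    have k1 := h.mono a ha.1 z hz e1
    have k2 := h.mono z hz b hb.1 e2
    omega
  refine ⟨a, ha.1, b, hb.1, ⟨fun z hz hz' u hu v hv e1 e2 e3 e4 => ?_, ?_⟩, (h1 x hx rfl).1,
    (h1 x hx rfl).2, (h1 y hy e.symm).1, (h1 y hy e.symm).2⟩
  · have k1 := h2 u hu e1 e2
    have k2 := h2 v hv e3 e4
    have k3 : B z ≠ B x := fun e => by have := h1 z hz e; omega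
    exact ⟨h.unif z hz z hz u hu v hv rfl (by omega) (by omega),
      h.unif u hu v hv z hz z hz (by omega) rfl (by omega)⟩
  · obtain ⟨u, hu, v, hv, huv⟩ := h.two
    by_contra hn
    push Not at hn
    have k1 := h2 u hu (hn u hu).1 (hn u hu).2
    have k2 := h2 v hv (hn v hv).1 (hn v hv).2
    omega

end Pool.Agent.MP_514f48_lc
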