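import Mathlib

/-!
Permutations, containment, monotone grid classes, inflation and substitution closure.
-/

namespace Pool.Agent.MP_514f48_lc

/-- A permutation of some length `n`, positions and values numbered from `0`. -/
abbrev Pm : Type := Σ n : ℕ, Equiv.Perm (Fin n)

/-- One-line notation. -/
def code (τ : Pm) : List ℕ := List.ofFn (fun x => (τ.2 x : ℕ))

/-- `τ` has a subsequence order-isomorphic to `π`. -/
def Contains (τ π : Pm) : Prop :=
  ∃ f : Fin π.1 → Fin τ.1, StrictMono f ∧ ∀ x y, π.2 x < π.2 y ↔ τ.2 (f x) < τ.2 (f y)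

/-- An entry of a monotone gridding matrix. -/
inductive Cell
  | inc
  | dec
  | empty

/-- `τ` has an `M`-gridding: position `x` lies in column `c x`, value `v` in row `r v`. -/
def InGrid {k l : ℕ} (M : Fin k → Fin l → Cell) (τ : Pm) : Prop :=
  ∃ (c : Fin τ.1 → Fin k) (r : Fin τ.1 → Fin l), Monotone c ∧ Monotone r ∧
    (∀ x, M (c x) (r (τ.2 x)) ≠ Cell.empty) ∧
    ∀ x y, x < y → c x = c y → r (τ.2 x) = r (τ.2 y) →
      (M (c x) (r (τ.2 x)) = Cell.inc → τ.2 x < τ.2 y) ∧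
      (M (c x) (r (τ.2 x)) = Cell.dec → τ.2 y < τ.2 x)

/-- `τ` avoids `321`. -/
def Av321 (τ : Pm) : Prop := ¬ ∃ x y z, x < y ∧ y < z ∧ τ.2 z < τ.2 y ∧ τ.2 y < τ.2 x

/-- `τ` avoids `123`. -/
def Av123 (τ : Pm) : Prop := ¬ ∃ x y z, x < y ∧ y < z ∧ τ.2 x < τ.2 y ∧ τ.2 y < τ.2 z

/-- `τ = σ[α_1, …, α_m]`: the points of `τ` are the pairs (point `i` of `σ`, point of `α i`); two
points with the same `i` compare (in position and in value) as in `α i`, the others as in `σ`. -/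
def IsInflation (σ : Pm) (α : Fin σ.1 → Pm) (τ : Pm) : Prop :=
  ∃ e : (Σ i : Fin σ.1, Fin (α i).1) ≃ Fin τ.1,
    (∀ i x y, (e ⟨i, x⟩ < e ⟨i, y⟩ ↔ x < y) ∧
      (τ.2 (e ⟨i, x⟩) < τ.2 (e ⟨i, y⟩) ↔ (α i).2 x < (α i).2 y)) ∧
    ∀ i j x y, i ≠ j → (e ⟨i, x⟩ < e ⟨j, y⟩ ↔ i < j) ∧
      (τ.2 (e ⟨i, x⟩) < τ.2 (e ⟨j, y⟩) ↔ σ.2 i < σ.2 j)

/-- The substitution closure of `C`: the least set of permutations that contains `C` and is closed
under inflation. -/
inductive SubCl (C : Pm → Prop) : Pm → Prop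
  | base {τ : Pm} : C τ → SubCl C τ
  | infl {σ τ : Pm} {α : Fin σ.1 → Pm} :
      SubCl C σ → (∀ i, SubCl C (α i)) → IsInflation σ α τ → SubCl C τ

end Pool.Agent.MP_514f48_lc
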